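import Pool.Agent.Q282.UK.Compl

/-!
# MP_f80667_ag: the Brauer-Manin complex for zero-cycles of degree zero and systems of bilinear equations
-/

set_option autoImplicit false

open CategoryTheory Limits AlgebraicGeometry Pool.Agent.Y116.UV Pool.Agent.Q282.UM
  Pool.Agent.Q282.UK

namespace Pool.Agent.Results.MP_f80667_ag.BilinearSystems

universe v u w

/-- Zero-cycles and Brauer groups, as functors on the category `C` of effective Chow motives over the
number field `F` (covariant, with integral coefficients), whose set of places is `Ω`. For the motive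
`M(X)` of a smooth projective `X` over `F`:

* `chow` is `CH_0(X)`, and `deg` is the map to the group `num` of the zero-cycles modulo numerical
  equivalence (if `X` is connected, this is the degree map onto its image);
* `chowAt v`, `numAt v`, `degAt v` are the same for `X_v`, over the completion `F_v`;
* `bar v` is `CH_0` of `X` over the algebraic closure of `F_v` for infinite `v`, and zero for finite
  `v`, and `norm v` is the push-forward;
* `res v` and `resNum v` are the base change from `F` to `F_v`;
* `dual` is the group `Hom(Br(X) / Br_0(X), ℚ / ℤ)`, where `Br_0(X)` is the image of the Brauer group of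
  the scheme of the connected components of `X` (of `F`, for geometrically connected `X`). -/
structure ZeroCycles (C : Type u) [Category.{v} C] (Ω : Type) where
  chow : C ⥤ ModuleCat.{w} ℤ
  num : C ⥤ ModuleCat.{w} ℤ
  deg : chow ⟶ num
  chowAt : Ω → (C ⥤ ModuleCat.{w} ℤ)
  numAt : Ω → (C ⥤ ModuleCat.{w} ℤ)
  degAt : ∀ v, chowAt v ⟶ numAt v
  bar : Ω → (C ⥤ ModuleCat.{w} ℤ)
  norm : ∀ v, bar v ⟶ chowAt v
  res : ∀ v, chow ⟶ chowAt v
  resNum : ∀ v, num ⟶ numAt v
  comm : ∀ v, deg ≫ resNum v = res v ≫ degAt v
  dual : C ⥤ ModuleCat.{w} ℤ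

variable {C : Type u} [Category.{v} C] {Ω : Type} (Z : ZeroCycles.{v, u, w} C Ω)

/-- The functor `F¹`, the kernel of the degree map `CH_0(X) → ℤ`. -/
noncomputable def degZero : C ⥤ ModuleCat.{w} ℤ := kernel Z.deg

/-- The functor `F¹(X_v)` (modified for infinite `v`): the image of the kernel of the degree map of
`CH_0(X_v)` in the quotient of `CH_0(X_v)` by the norms. -/
noncomputable def degZeroAt (v : Ω) : C ⥤ ModuleCat.{w} ℤ := kerMod (Z.degAt v) (Z.norm v)

/-- The functor `F¹_A(X) = ∏ v, F¹(X_v)`. -/
noncomputable def adelic : C ⥤ ModuleCat.{w} ℤ := ∏ᶜ degZeroAt Z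

/-- The diagonal map `F¹(X) → F¹_A(X)`. -/
noncomputable def diagonal : degZero Z ⟶ adelic Z := Pi.lift fun v =>
  kernel.map Z.deg (Z.degAt v) (Z.res v) (Z.resNum v) (Z.comm v) ≫
    toKerMod (Z.degAt v) (Z.norm v)

/-- The map `pair` from the completion of `F¹_A(X)` to `Hom(Br(X) / Br_0(X), ℚ / ℤ)` (given by the
sums of the local pairings) is zero on the image of the completion of `F¹(X)` (global reciprocity), and
the functors `CH_0(X_v)` are additive. -/
structure IsZeroCycles [Preadditive C] (pair : compl (adelic Z) ⟶ Z.dual) : Prop where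
  additive : ∀ v, (Z.chowAt v).Additive
  zero : complMap (diagonal Z) ≫ pair = 0

variable {Z}

/-- The complex of functors `lim F¹(X) / n → lim F¹_A(X) / n → Hom(Br(X) / Br_0(X), ℚ / ℤ)`. -/
noncomputable def complex [Preadditive C] {pair : compl (adelic Z) ⟶ Z.dual}
    (hZ : IsZeroCycles Z pair) : ShortComplex (C ⥤ ModuleCat.{w} ℤ) :=
  ShortComplex.mk (complMap (diagonal Z)) pair hZ.zero

lemma adelic_additive [Preadditive C] {pair : compl (adelic Z) ⟶ Z.dual}
    (hZ : IsZeroCycles Z pair) : (compl (adelic Z)).Additive := by
  have h : (adelic Z).Additive :=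
    prod_additive _ fun v => kerMod_additive (Z.degAt v) (Z.norm v) (hZ.additive v)
  exact compl_additive _ h

/-- **The Brauer-Manin complex for zero-cycles of degree zero and systems of bilinear equations.** Let `F`
be a number field, `C` the category of effective Chow motives over `F`, with integral coefficients, and
let `W(X)` be the weight complex of the scheme `X` of finite type over `F`. The complex
`lim F¹(X)/n → lim F¹_A(X)/n → Hom(Br(X)/Br_0(X), ℚ/ℤ)` is exact for all smooth projective `X` over `F`
if and only if for all `Y ⊂ 𝔸^{a+b}` given by systems of bilinear equations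
`∑ T_{i, j, l} x_i y_j = 0`, `l = 1, …, c`, over `F` the complex `E(W(Y))` is acyclic, where `E(M)` is the
homology of the complex for the motive `M`. For `F = ℚ` the systems with coefficients `0` and `1` are
enough. -/
theorem result {C : Type u} [Category.{v} C] [Preadditive C] [HasZeroObject C]
    [HasBinaryBiproducts C] [HasFiniteBiproducts C] {Ω : Type} (Z : ZeroCycles.{v, u, w} C Ω)
    (pair : compl (adelic Z) ⟶ Z.dual) (hZ : IsZeroCycles Z pair) :
    (∀ (F : Type) [Field F] (D : Complexes F C), IsCovariant D →
      (ForMotives D (ExactOn (complex hZ)) ↔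
        ForSystems D (ExactK (complex hZ) (adelic_additive hZ)))) ∧
    ∀ D : Complexes ℚ C, IsCovariant D →
      (ForMotives D (ExactOn (complex hZ)) ↔
        ForBinarySystems D (ExactK (complex hZ) (adelic_additive hZ))) :=
  ⟨fun _ _ _ hD => systems_cov hD (ext_exact (complex hZ) (adelic_additive hZ)),
    fun _ hD => binary_cov presents_rat hD (ext_exact (complex hZ) (adelic_additive hZ))⟩

end Pool.Agent.Results.MP_f80667_ag.BilinearSystems
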