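import Mathlib
import Pool.Agent.Y667.QK.Main0
import Pool.Agent.Y388.QK.Deg
import Pool.Agent.Y388.QK.Flip
import Pool.Agent.Q284.ZC.Fin
import Pool.Agent.Q284.FDQ.App
import Pool.Agent.W672.FK.Lowf
import Pool.Agent.W307.RT.Tors
import Pool.Agent.Y679.Cr.Conv
import Pool.Agent.Y679.Cr.Dens
import Pool.Agent.Q323.CO.List
import Pool.Agent.Q323.ZT.Tw

/-!
# Zero-cycles modulo two on `2 ^ m` quadratic twists at the same time

All elliptic curves `E : y² = x³ + A x + B` over `ℚ` with full rational 2-torsion, ordered by the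
naive height, by the absolute value of the minimal discriminant or by the conductor. The closed
points of `E`, except for the point at infinity `O`, over a field `K` are the maximal ideals of the
coordinate ring `K[E]`, and the group `F¹(E_K)` of the zero-cycles of degree zero modulo rational
equivalence is the class group of `K[E]`. For a root `e` of `x³ + A x + B` and a nonzero integer `q`
the quaternion algebra `(x - e, q)` is an element of the Brauer group of `E`; its value at a closed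
point with the residue field `L` is the quaternion algebra `(N(x - e), q)` over `K`, `N` the norm
from `L` to `K`. For every `m` and `N` there is a finite list of tuples `(q_1 q'_1, ..., q_m q'_m)`
of products of two primes, the `2 m` primes distinct and larger than `N`, and `δ > 0` such that for
all large `Z` for some tuple `d` of the list at least a proportion `δ` of the curves of size at most
`Z` has the following property for ALL the `2 ^ m` quadratic twists `E^D`, `D = ∏_{i ∈ T} d_i`: the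
sequence `F¹(E^D) / 2 → ∏_v F¹(E^D_v) / 2 → Hom(Br, ℚ / ℤ)` is exact, already for the classes
`(x - e, q)`. One tuple of the list has this property for arbitrarily large `Z`.
-/

set_option autoImplicit false

namespace Pool.Agent.Results.MP_f80667_ag.SimultaneousTwists

open Finset Filter Topology nonZeroDivisors

/-- the curve `y² = x³ + A x + B` over `ℚ` -/
def E (A B : ℤ) : WeierstrassCurve ℚ := ⟨0, 0, 0, (A : ℚ), (B : ℚ)⟩

/-- the absolute value of the minimal discriminant of an elliptic curve `W` over `ℚ`: the smallest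
absolute value of the discriminant of a Weierstrass equation `V` with integer coefficients which is
isomorphic to `W` over `ℚ` -/
noncomputable def minDisc (W : WeierstrassCurve ℚ) : ℕ :=
  sInf {n : ℕ | ∃ (V : WeierstrassCurve ℤ) (C : WeierstrassCurve.VariableChange ℚ),
    C • W = V.map (Int.castRingHom ℚ) ∧ n = V.Δ.natAbs}

/-- the naive height of `y² = x³ + A x + B` is at most `Z` -/
def HeightLe (c : ℤ × ℤ) (Z : ℕ) : Prop := 4 * |c.1| ^ 3 ≤ Z ∧ 27 * c.2 ^ 2 ≤ Z

/-- the minimal discriminant of `y² = x³ + A x + B` is at most `Z` in absolute value -/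
def DiscLe (c : ℤ × ℤ) (Z : ℕ) : Prop := minDisc (E c.1 c.2) ≤ Z

/-- The prime-to-6 part of the conductor of `y² = x³ + A x + B` (there is no prime `p` with `p⁴ ∣ A`
and `p⁶ ∣ B`): the product over the primes `p ≥ 5` dividing `4 A³ + 27 B²` of `p` (multiplicative
reduction: `p ∤ A`) or `p²` (additive reduction: `p ∣ A`) -/
def Cond6 (c : ℤ × ℤ) : ℕ :=
  ∏ p ∈ (Int.natAbs (4 * c.1 ^ 3 + 27 * c.2 ^ 2)).primeFactors.filter (fun p => 5 ≤ p),
    if (p : ℤ) ∣ c.1 then p ^ 2 else p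

/-- the admissible factors: functions with values between `1` and `2 ^ 8 * 3 ^ 5`, for instance the
part of the conductor composed of the primes 2 and 3, or `f = 1` -/
def Factor (f : ℤ × ℤ → ℕ) : Prop := ∀ c, 1 ≤ f c ∧ f c ≤ 2 ^ 8 * 3 ^ 5

/-- the conductor (its prime-to-6 part times the factor `f`) of `y² = x³ + A x + B` is at most `Z` -/
def CondLe (f : ℤ × ℤ → ℕ) (c : ℤ × ℤ) (Z : ℕ) : Prop := f c * Cond6 c ≤ Z

/-- The pairs `(A, B)` of integers such that `4 A³ + 27 B² ≠ 0`, there is no prime `p` with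
`p⁴ ∣ A` and `p⁶ ∣ B`, `Z/2 x Z/2` embeds in the group of the rational points of
`y² = x³ + A x + B`, and the size (`HeightLe`, `DiscLe` or `CondLe f`) is at most `Z`. Every
elliptic curve over `ℚ` with full rational 2-torsion is isomorphic to `E A B` for exactly one pair
with the first three properties. -/
def Fam (I : ℤ × ℤ → ℕ → Prop) (Z : ℕ) : Set (ℤ × ℤ) :=
  {c : ℤ × ℤ | 4 * c.1 ^ 3 + 27 * c.2 ^ 2 ≠ 0 ∧
    (∀ p : ℕ, p.Prime → ¬ ((p : ℤ) ^ 4 ∣ c.1 ∧ (p : ℤ) ^ 6 ∣ c.2)) ∧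
    (∃ f : ZMod 2 × ZMod 2 →+ (E c.1 c.2).toAffine.Point, Function.Injective f) ∧ I c Z}

/-- the proportion of the curves of `S` among the curves of size at most `Z` -/
noncomputable def proportion (I : ℤ × ℤ → ℕ → Prop) (S : Set (ℤ × ℤ)) (Z : ℕ) : ℝ :=
  ((Fam I Z ∩ S).ncard : ℝ) / (Fam I Z).ncard

lemma FamH_eq (H : ℕ) : Fam HeightLe H = (Pool.Agent.W307.RT.Cv 2 H : Set (ℤ × ℤ)) := by
  classical
  ext c
  have h : Pool.Agent.W307.RT.HasT 2 (Pool.Agent.W307.RT.Sh c.1 c.2) ↔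
    ∃ f : ZMod 2 × ZMod 2 →+ (E c.1 c.2).toAffine.Point, Function.Injective f :=
    Pool.Agent.W307.RT.tors_iff
  unfold Fam HeightLe Pool.Agent.W307.RT.Cv
  rw [Set.mem_ofPred_eq, mem_coe, mem_filter, h, mem_product, mem_Icc, mem_Icc]
  constructor
  · rintro ⟨h1, h2, h3, h4, h5⟩
    refine ⟨⟨?_, ?_⟩, h1, h4, h5, h2, h3⟩
    · rw [← abs_le]
      have h0 := abs_nonneg c.1
      rcases eq_or_lt_of_le h0 with h6 | h6
      · rw [← h6]; positivity
      · have : 1 ≤ |c.1| := h6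
        nlinarith [mul_nonneg h0 h0, mul_self_nonneg (|c.1| - 1)]
    · rw [← abs_le]
      have h0 := abs_nonneg c.2
      rw [← sq_abs] at h5
      rcases eq_or_lt_of_le h0 with h6 | h6
      · rw [← h6]; positivity
      · have : 1 ≤ |c.2| := h6
        nlinarith
  · rintro ⟨-, h1, h4, h5, h2, h3⟩
    exact ⟨h1, h2, h3, h4, h5⟩

lemma FamD_eq (D : ℕ) : Fam DiscLe D = (Pool.Agent.TH344.DS.Dv D : Set (ℤ × ℤ)) := by
  classical
  have h0 : Fam DiscLe D = Pool.Agent.W307.RS.DvS 2 D := by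
    ext c
    have h : Pool.Agent.W307.RT.HasT 2 (Pool.Agent.W307.RT.Sh c.1 c.2) ↔
        ∃ f : ZMod 2 × ZMod 2 →+ (E c.1 c.2).toAffine.Point, Function.Injective f :=
      Pool.Agent.W307.RT.tors_iff
    unfold Fam Pool.Agent.W307.RS.DvS
    rw [Set.mem_ofPred_eq, Set.mem_ofPred_eq, h]
    exact Iff.rfl
  rw [h0]
  unfold Pool.Agent.TH344.DS.Dv
  rw [dif_pos (Pool.Agent.TH344.DS.excd.1 D), Set.Finite.coe_toFinset]

/-- The number of these curves tends to infinity (ordering by height). -/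
lemma tendstoH : Tendsto (fun Z : ℕ => (Fam HeightLe Z).ncard) atTop atTop := by
  simp only [FamH_eq, Set.ncard_coe_finset]
  exact Pool.Agent.W307.RT.tendsto_of_low Pool.Agent.W672.FK.lowf

/-- The number of these curves tends to infinity (ordering by the minimal discriminant). -/
lemma tendstoD : Tendsto (fun Z : ℕ => (Fam DiscLe Z).ncard) atTop atTop := by
  have h1 := Pool.Agent.W307.RT.tendsto_of_low Pool.Agent.W672.FK.lowf
  have h2 : Tendsto (fun D : ℕ => (Pool.Agent.W307.RT.Cv 2 (D / 32)).card) atTop atTop :=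
    h1.comp (Nat.tendsto_div_const_atTop (by norm_num))
  obtain ⟨hD1, hD2, hD3⟩ := Pool.Agent.TH344.DS.excd
  refine tendsto_atTop_mono (fun D => ?_) h2
  have h3 : (Pool.Agent.TH344.DS.Dv D : Set (ℤ × ℤ)) = Pool.Agent.W307.RS.DvS 2 D := by
    unfold Pool.Agent.TH344.DS.Dv
    rw [dif_pos (hD1 D), Set.Finite.coe_toFinset]
  rw [FamD_eq, h3, ← Set.ncard_coe_finset]
  exact Set.ncard_le_ncard (Pool.Agent.W307.RS.Cv_sub Pool.Agent.W554.RS.mdl 2 (D / 32) D
    (Nat.mul_div_le D 32)) (hD1 D)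

/-- The tuples `(q_1 q'_1, ..., q_m q'_m)`, where the `q_i` and `q'_i` are `2 m` distinct primes, all
larger than `N`. -/
def Tuple {m : ℕ} (N : ℕ) (d : Fin m → ℕ) : Prop :=
  ∃ q q' : Fin m → ℕ, (∀ i, d i = q i * q' i) ∧ (∀ i, (q i).Prime ∧ N < q i) ∧
    (∀ i, (q' i).Prime ∧ N < q' i) ∧ Function.Injective q ∧ Function.Injective q' ∧
    ∀ i j, q i ≠ q' j

/-- the curve `y² = x³ + A x + B` over the integers -/
def W (A B : ℤ) : WeierstrassCurve.Affine ℤ := ⟨0, 0, 0, A, B⟩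

/-- the points of `y² = x³ + A x + B` over a field -/
abbrev Pt (A B : ℤ) (K : Type) [Field K] : Type := ((W A B).baseChange K).Point

/-- the coordinate ring of the affine curve `y² = x³ + A x + B` over a field -/
def Crd (A B : ℤ) (K : Type) [Field K] : Type := ((W A B).baseChange K).CoordinateRing

noncomputable instance (A B : ℤ) (K : Type) [Field K] : CommRing (Crd A B K) :=
  (inferInstance : CommRing ((W A B).baseChange K).CoordinateRing)

instance (A B : ℤ) (K : Type) [Field K] : IsDomain (Crd A B K) :=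
  (inferInstance : IsDomain ((W A B).baseChange K).CoordinateRing)

noncomputable instance (A B : ℤ) (K : Type) [Field K] : Algebra K (Crd A B K) :=
  (inferInstance : Algebra K ((W A B).baseChange K).CoordinateRing)

/-- a zero-cycle on the affine curve over `K`: a finite formal sum of maximal ideals of the
coordinate ring -/
abbrev Cycle (A B : ℤ) (K : Type) [Field K] : Type := MaximalSpectrum (Crd A B K) →₀ ℤ

/-- the fractional ideals of a domain -/
def FracId (R : Type) [CommRing R] [IsDomain R] : Type := FractionalIdeal R⁰ (FractionRing R)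

noncomputable instance (R : Type) [CommRing R] [IsDomain R] : Monoid (FracId R) :=
  (inferInstance : Monoid (FractionalIdeal R⁰ (FractionRing R)))

/-- an ideal as a fractional ideal -/
noncomputable def frac {R : Type} [CommRing R] [IsDomain R] (I : Ideal R) : FracId R :=
  FractionalIdeal.coeIdeal I

/-- the class of an invertible fractional ideal in the class group -/
noncomputable def mkCl (R : Type) [CommRing R] [IsDomain R] : (FracId R)ˣ →* ClassGroup R :=
  ClassGroup.mk (FractionRing R)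

open Classical in
/-- The class of an invertible ideal in the class group (`1` if the ideal is not invertible). -/
noncomputable def cl {R : Type} [CommRing R] [IsDomain R] (I : Ideal R) : ClassGroup R :=
  if h : IsUnit (frac I) then mkCl R h.unit else 1

/-- The class of a zero-cycle in the class group of the coordinate ring, that is, in `F¹(E_K)`. -/
noncomputable def class' {A B : ℤ} {K : Type} [Field K] (z : Cycle A B K) : ClassGroup (Crd A B K) :=
  z.prod fun 𝔪 n => cl 𝔪.asIdeal ^ n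

/-- the residue field of a closed point -/
def Res {A B : ℤ} {K : Type} [Field K] (𝔪 : MaximalSpectrum (Crd A B K)) : Type :=
  Crd A B K ⧸ 𝔪.asIdeal

noncomputable instance {A B : ℤ} {K : Type} [Field K] (𝔪 : MaximalSpectrum (Crd A B K)) :
    CommRing (Res 𝔪) := (inferInstance : CommRing (Crd A B K ⧸ 𝔪.asIdeal))

noncomputable instance {A B : ℤ} {K : Type} [Field K] (𝔪 : MaximalSpectrum (Crd A B K)) :
    Algebra K (Res 𝔪) := (inferInstance : Algebra K (Crd A B K ⧸ 𝔪.asIdeal))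

/-- the function `x` -/
noncomputable def X (A B : ℤ) (K : Type) [Field K] : Crd A B K :=
  WeierstrassCurve.Affine.CoordinateRing.mk _ (Polynomial.C Polynomial.X)

/-- the image of the function `x` in the residue field of a closed point -/
noncomputable def xval {A B : ℤ} {K : Type} [Field K] (𝔪 : MaximalSpectrum (Crd A B K)) : Res 𝔪 :=
  Ideal.Quotient.mk 𝔪.asIdeal (X A B K)

open Classical in
/-- The norm of the value of the function `x - e` at a closed point, modulo squares, `e` a root of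
`x³ + A x + B`. The divisor of the function is `2 (e, 0) - 2 O`; at the zero the value is that of the
product of the two other functions (the derivative of the polynomial). -/
noncomputable def value {A B : ℤ} {K : Type} [Field K] (𝔪 : MaximalSpectrum (Crd A B K)) (e : ℤ) :
    K :=
  Algebra.norm K (if xval 𝔪 - (e : Res 𝔪) = 0 then ((3 * e ^ 2 + A : ℤ) : Res 𝔪)
    else xval 𝔪 - (e : Res 𝔪))

/-- The value of `x - e` at a zero-cycle, modulo squares. The value of the class `(x - e, q)` of the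
Brauer group at the zero-cycle is the class of the quaternion algebra with this entry and `q`. -/
noncomputable def eval {A B : ℤ} {K : Type} [Field K] (z : Cycle A B K) (e : ℤ) : K :=
  z.prod fun 𝔪 n => value 𝔪 e ^ n

/-- a family of zero-cycles over all the completions of `ℚ`: the real component and the `p`-adic
components -/
abbrev Local (A B : ℤ) : Type := Cycle A B ℝ × ∀ p : Nat.Primes, Cycle A B ℚ_[(p : ℕ)]

/-- The quaternion algebra `(a, b)` over `F` splits, that is, the Hilbert symbol `(a, b)` is `1`: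
the conic `z ^ 2 = a x ^ 2 + b y ^ 2` has a point over `F`. -/
def Splits {F : Type} [Field F] (a b : F) : Prop :=
  ∃ x y z : F, (x ≠ 0 ∨ y ≠ 0 ∨ z ≠ 0) ∧ z ^ 2 = a * x ^ 2 + b * y ^ 2

/-- The set of the places (`none` is the real one) at which the value of the class `(x - e, q)` at
the family of local zero-cycles is not trivial. -/
def Ram {A B : ℤ} (z : Local A B) (e q : ℤ) : Set (Option Nat.Primes) :=
  {v | match v with
    | none => ¬ Splits (eval z.1 e) (q : ℝ)
    | some p => ¬ Splits (eval (z.2 p) e) (q : ℚ_[(p : ℕ)])}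

/-- The family of local zero-cycles is orthogonal to the classes `(x - e, q)`: the number of the
places at which the value is not trivial is even, so that the sum of the invariants is zero. -/
def Orthogonal {A B : ℤ} (z : Local A B) : Prop :=
  ∀ e : ℤ, e ^ 3 + A * e + B = 0 → ∀ q : ℤ, q ≠ 0 → Even (Ram z e q).ncard

open Classical in
/-- The class of `P - O` in `F¹(E_K)`, as a homomorphism: Mathlib's isomorphism `toClass` of the
group of points with the class group. -/
noncomputable def toCl (A B : ℤ) (K : Type) [Field K] :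
    Pt A B K →+ Additive (ClassGroup (Crd A B K)) :=
  WeierstrassCurve.Affine.Point.toClass

open Classical in
/-- The class of `P - O` in `F¹(E_K)`. -/
noncomputable def ptClass {A B : ℤ} {K : Type} [Field K] (P : Pt A B K) : ClassGroup (Crd A B K) :=
  (toCl A B K P).toMul

open Classical in
/-- a rational point as a point over `K` -/
noncomputable def bc {A B : ℤ} (Q : Pt A B ℚ) (K : Type) [Field K] [CharZero K] : Pt A B K :=
  WeierstrassCurve.Affine.Point.baseChange ℚ K Q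

/-- The zero-cycle is congruent to the class of `Q - O` modulo `2 F¹(E_K)`. -/
def Cong {A B : ℤ} {K : Type} [Field K] [CharZero K] (z : Cycle A B K) (Q : Pt A B ℚ) : Prop :=
  ∃ c : ClassGroup (Crd A B K), class' z = ptClass (bc Q K) * c ^ 2

/-- The family of local zero-cycles is congruent to the class of the zero-cycle `Q - O` modulo
`2 F¹(E_v)` at all the places `v`, `Q` a rational point (or `O`). -/
def Congruent {A B : ℤ} (z : Local A B) (Q : Pt A B ℚ) : Prop :=
  Cong z.1 Q ∧ ∀ p : Nat.Primes, Cong (z.2 p) Q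

/-- all maximal ideals of the coordinate ring are invertible -/
def Invertible (A B : ℤ) (K : Type) [Field K] : Prop :=
  ∀ 𝔪 : MaximalSpectrum (Crd A B K), IsUnit (frac 𝔪.asIdeal)

/-- The curves for which every class `(x - e, q)` has a nontrivial value at finitely many components
of every family of local zero-cycles, and every family orthogonal to these classes is congruent to a
rational zero-cycle modulo `2 F¹(E_v)` at all the places (all the maximal ideals of the coordinate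
rings being invertible, so that the classes make sense). -/
def ModTwo : Set (ℤ × ℤ) :=
  {c | (Invertible c.1 c.2 ℝ ∧ ∀ p : Nat.Primes, Invertible c.1 c.2 ℚ_[(p : ℕ)]) ∧
    (∀ (z : Local c.1 c.2) (e q : ℤ), e ^ 3 + c.1 * e + c.2 = 0 → q ≠ 0 → (Ram z e q).Finite) ∧
    ∀ z : Local c.1 c.2, Orthogonal z → ∃ Q : Pt c.1 c.2 ℚ, Congruent z Q}

open Classical in
lemma value_eq {K : Type} [Field K] {A B e e' e'' : ℤ}
    (h : ∀ x : ℤ, x ^ 3 + A * x + B = (x - e) * (x - e') * (x - e''))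
    (𝔪 : MaximalSpectrum (Crd A B K)) :
    value 𝔪 e = Pool.Agent.Q284.ZC.cval (W := (Pool.Agent.Q284.FDQ.WZ A B).baseChange K)
      𝔪.asIdeal (e : K) (((e : K) - e') * (e - e'')) := by
  obtain ⟨hs, hA, -⟩ := Pool.Agent.W402.FK.coef A B e e' e'' h
  have h1 : ((3 * e ^ 2 + A : ℤ) : K) = ((e : K) - e') * (e - e'') := by
    have h2 : 3 * e ^ 2 + A = (e - e') * (e - e'') := by
      rw [hA]
      linear_combination (2 * e) * hs
    rw [h2]
    push_cast
    ring
  have h2 : ((3 * e ^ 2 + A : ℤ) : Res 𝔪) =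
      algebraMap K (Res 𝔪) (((e : K) - e') * (e - e'')) := by
    rw [← h1]
    exact (map_intCast (algebraMap K (Res 𝔪)) _).symm
  have h3 : (e : Res 𝔪) = algebraMap K (Res 𝔪) (e : K) :=
    (map_intCast (algebraMap K (Res 𝔪)) e).symm
  unfold value
  rw [h2, h3]
  rfl

/-- the point with the class and the values of a zero-cycle -/
lemma cycle_pt {K : Type} [Field K] [CharZero K] [DecidableEq K] {A B e1 e2 e3 : ℤ}
    (h : ∀ x : ℤ, x ^ 3 + A * x + B = (x - e1) * (x - e2) * (x - e3)) (h12 : e1 ≠ e2)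
    (h13 : e1 ≠ e3) (h23 : e2 ≠ e3) (z : Cycle A B K) :
    ∃ S : ((Pool.Agent.Q284.FDQ.WZ A B).baseChange K).Point,
      class' z = (WeierstrassCurve.Affine.Point.toClass S).toMul ∧
      (IsSquare (Pool.Agent.Q284.FDQ.vl S (e1 : K) (((e1 : K) - e2) * (e1 - e3)) * eval z e1) ∧
        eval z e1 ≠ 0) ∧
      (IsSquare (Pool.Agent.Q284.FDQ.vl S (e2 : K) (((e2 : K) - e1) * (e2 - e3)) * eval z e2) ∧
        eval z e2 ≠ 0) ∧
      IsSquare (Pool.Agent.Q284.FDQ.vl S (e3 : K) (((e3 : K) - e1) * (e3 - e2)) * eval z e3) ∧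
        eval z e3 ≠ 0 := by
  have c12 : (e1 : K) ≠ e2 := fun h => h12 (by exact_mod_cast h)
  have c13 : (e1 : K) ≠ e3 := fun h => h13 (by exact_mod_cast h)
  have c23 : (e2 : K) ≠ e3 := fun h => h23 (by exact_mod_cast h)
  have p2 : ∀ x : ℤ, x ^ 3 + A * x + B = (x - e2) * (x - e1) * (x - e3) := by
    intro x; rw [h]; ring
  have p3 : ∀ x : ℤ, x ^ 3 + A * x + B = (x - e3) * (x - e1) * (x - e2) := by
    intro x; rw [h]; ring
  obtain ⟨S, s0, ⟨s1, s2, s3⟩, n1, n2, n3⟩ := Pool.Agent.Q284.ZC.cycle_cls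
    (W := (Pool.Agent.Q284.FDQ.WZ A B).baseChange K) (Pool.Agent.Q284.FDQ.WZ_eq h K)
    c12 c13 c23 z
  have g1 : eval z e1 = z.prod fun 𝔪 n => Pool.Agent.Q284.ZC.cval
      (W := (Pool.Agent.Q284.FDQ.WZ A B).baseChange K) 𝔪.asIdeal (e1 : K)
      (((e1 : K) - e2) * (e1 - e3)) ^ n := by
    unfold eval
    exact Finset.prod_congr rfl fun 𝔪 _ => congrArg (· ^ (z 𝔪)) (value_eq h 𝔪)
  have g2 : eval z e2 = z.prod fun 𝔪 n => Pool.Agent.Q284.ZC.cval
      (W := (Pool.Agent.Q284.FDQ.WZ A B).baseChange K) 𝔪.asIdeal (e2 : K)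
      (((e2 : K) - e1) * (e2 - e3)) ^ n := by
    unfold eval
    exact Finset.prod_congr rfl fun 𝔪 _ => congrArg (· ^ (z 𝔪)) (value_eq p2 𝔪)
  have g3 : eval z e3 = z.prod fun 𝔪 n => Pool.Agent.Q284.ZC.cval
      (W := (Pool.Agent.Q284.FDQ.WZ A B).baseChange K) 𝔪.asIdeal (e3 : K)
      (((e3 : K) - e1) * (e3 - e2)) ^ n := by
    unfold eval
    exact Finset.prod_congr rfl fun 𝔪 _ => congrArg (· ^ (z 𝔪)) (value_eq p3 𝔪)
  rw [g1, g2, g3]
  exact ⟨S, s0, ⟨s1, n1⟩, ⟨s2, n2⟩, s3, n3⟩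

lemma mem_of {c : ℤ × ℤ} (h : Pool.Agent.Q323.ZT.PR' c) : c ∈ ModTwo := by
  classical
  obtain ⟨e1, e2, e3, hp, h12, h13, h23, hrat⟩ := h
  have p2 : ∀ x : ℤ, x ^ 3 + c.1 * x + c.2 = (x - e2) * (x - e1) * (x - e3) := by
    intro x; rw [hp]; ring
  have p3 : ∀ x : ℤ, x ^ 3 + c.1 * x + c.2 = (x - e3) * (x - e1) * (x - e2) := by
    intro x; rw [hp]; ring
  have hinv : ∀ (K : Type) [Field K] [CharZero K], Invertible c.1 c.2 K := by
    intro K _ _ 𝔪
    have c12 : (e1 : K) ≠ e2 := fun h => h12 (by exact_mod_cast h)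
    have c13 : (e1 : K) ≠ e3 := fun h => h13 (by exact_mod_cast h)
    have c23 : (e2 : K) ≠ e3 := fun h => h23 (by exact_mod_cast h)
    exact (Pool.Agent.Q284.ZC.max_cls (h := 𝔪.isMaximal)
      (W := (Pool.Agent.Q284.FDQ.WZ c.1 c.2).baseChange K) (Pool.Agent.Q284.FDQ.WZ_eq hp K)
      c12 c13 c23 𝔪.asIdeal).1
  have ne : ∀ {a b c : ℤ}, a ≠ b → a ≠ c → ∀ (K : Type) [Field K] [CharZero K],
      ((a : K) - b) * (a - c) ≠ 0 := by
    intro a b c hab hac K _ _
    exact mul_ne_zero (sub_ne_zero.2 (fun h => hab (by exact_mod_cast h)))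
      (sub_ne_zero.2 (fun h => hac (by exact_mod_cast h)))
  -- the adelic point
  have pts : ∀ z : Local c.1 c.2, ∃ (Pr : ((Pool.Agent.Q284.FDQ.WZ c.1 c.2).baseChange ℝ).Point)
      (Pp : ∀ p : Nat.Primes, ((Pool.Agent.Q284.FDQ.WZ c.1 c.2).baseChange ℚ_[(p : ℕ)]).Point),
      class' z.1 = (WeierstrassCurve.Affine.Point.toClass Pr).toMul ∧
      (∀ p, class' (z.2 p) = (WeierstrassCurve.Affine.Point.toClass (Pp p)).toMul) ∧
      (∀ q : ℤ, Ram z e1 q = Pool.Agent.W313.BMX.ram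
        ⟨Pool.Agent.Q284.FDQ.vl Pr (e1 : ℝ) (((e1 : ℝ) - e2) * (e1 - e3)), fun p =>
          Pool.Agent.Q284.FDQ.vl (Pp p) (e1 : ℚ_[(p : ℕ)])
            (((e1 : ℚ_[(p : ℕ)]) - e2) * (e1 - e3))⟩ q) ∧
      (∀ q : ℤ, Ram z e2 q = Pool.Agent.W313.BMX.ram
        ⟨Pool.Agent.Q284.FDQ.vl Pr (e2 : ℝ) (((e2 : ℝ) - e1) * (e2 - e3)), fun p =>
          Pool.Agent.Q284.FDQ.vl (Pp p) (e2 : ℚ_[(p : ℕ)])
            (((e2 : ℚ_[(p : ℕ)]) - e1) * (e2 - e3))⟩ q) ∧
      (∀ q : ℤ, Ram z e3 q = Pool.Agent.W313.BMX.ram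
        ⟨Pool.Agent.Q284.FDQ.vl Pr (e3 : ℝ) (((e3 : ℝ) - e1) * (e3 - e2)), fun p =>
          Pool.Agent.Q284.FDQ.vl (Pp p) (e3 : ℚ_[(p : ℕ)])
            (((e3 : ℚ_[(p : ℕ)]) - e1) * (e3 - e2))⟩ q) := by
    intro z
    obtain ⟨Pr, r0, ⟨r1, r1'⟩, ⟨r2, r2'⟩, r3, r3'⟩ := cycle_pt hp h12 h13 h23 z.1
    choose Pp k0 k1 k2 k3 k3' using fun p : Nat.Primes => cycle_pt hp h12 h13 h23 (z.2 p)
    refine ⟨Pr, Pp, r0, k0, fun q => ?_, fun q => ?_, fun q => ?_⟩
    · ext v
      cases v with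
      | none =>
        exact not_congr (Pool.Agent.Q284.ZC.splits_sq
          (Pool.Agent.Q284.FDQ.vl_ne Pr (ne h12 h13 ℝ)) r1' r1).symm
      | some p =>
        exact not_congr (Pool.Agent.Q284.ZC.splits_sq
          (Pool.Agent.Q284.FDQ.vl_ne (Pp p) (ne h12 h13 _)) (k1 p).2 (k1 p).1).symm
    · ext v
      cases v with
      | none =>
        exact not_congr (Pool.Agent.Q284.ZC.splits_sq
          (Pool.Agent.Q284.FDQ.vl_ne Pr (ne h12.symm h23 ℝ)) r2' r2).symm
      | some p =>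
        exact not_congr (Pool.Agent.Q284.ZC.splits_sq
          (Pool.Agent.Q284.FDQ.vl_ne (Pp p) (ne h12.symm h23 _)) (k2 p).2 (k2 p).1).symm
    · ext v
      cases v with
      | none =>
        exact not_congr (Pool.Agent.Q284.ZC.splits_sq
          (Pool.Agent.Q284.FDQ.vl_ne Pr (ne h13.symm h23.symm ℝ)) r3' r3).symm
      | some p =>
        exact not_congr (Pool.Agent.Q284.ZC.splits_sq
          (Pool.Agent.Q284.FDQ.vl_ne (Pp p) (ne h13.symm h23.symm _)) (k3' p) (k3 p)).symm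
  refine ⟨⟨hinv ℝ, fun p => hinv _⟩, fun z e q he hq => ?_, fun z hz => ?_⟩
  · obtain ⟨Pr, Pp, -, -, t1, t2, t3⟩ := pts z
    rcases Pool.Agent.W402.FK.roots c.1 c.2 e1 e2 e3 hp e he with rfl | rfl | rfl
    · rw [t1 q]
      exact Pool.Agent.Q284.FDQ.ram_fin hp h12 h13 h23 Pr Pp hq
    · rw [t2 q]
      exact Pool.Agent.Q284.FDQ.ram_fin p2 h12.symm h23 h13 Pr Pp hq
    · rw [t3 q]
      exact Pool.Agent.Q284.FDQ.ram_fin p3 h13.symm h23.symm h12 Pr Pp hq
  · obtain ⟨Pr, Pp, s0, s1, t1, t2, -⟩ := pts z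
    obtain ⟨Q, q1, q2⟩ := Pool.Agent.Q323.ZT.adelic_core' hp h12 h13 h23 hrat Pr Pp
      (fun q hq => by
        have := hz e1 (by rw [hp]; ring) q hq
        rwa [t1 q] at this)
      (fun q hq => by
        have := hz e2 (by rw [hp]; ring) q hq
        rwa [t2 q] at this)
    refine ⟨Q, ?_, fun p => ?_⟩
    · obtain ⟨R, hR⟩ := q1
      refine ⟨(WeierstrassCurve.Affine.Point.toClass R).toMul, ?_⟩
      rw [s0, hR, map_add, toMul_add, map_add, toMul_add]
      exact congrArg₂ (· * ·) rfl (pow_two _).symm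
    · obtain ⟨R, hR⟩ := q2 p
      refine ⟨(WeierstrassCurve.Affine.Point.toClass R).toMul, ?_⟩
      rw [s1, hR, map_add, toMul_add, map_add, toMul_add]
      exact congrArg₂ (· * ·) rfl (pow_two _).symm

/-- The curves `E : y² = x³ + A x + B` such that for all the `2 ^ m` products `D = ∏_{i ∈ T} d_i` the
quadratic twist `E^D : y² = x³ + D² A x + D³ B` belongs to `ModTwo`. -/
def AllTwists {m : ℕ} (d : Fin m → ℕ) : Set (ℤ × ℤ) :=
  {c | ∀ (T : Finset (Fin m)) (D : ℤ), D = ∏ i ∈ T, (d i : ℤ) →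
    (D ^ 2 * c.1, D ^ 3 * c.2) ∈ ModTwo}

lemma tup_pos {m N : ℕ} {d : Fin m → ℕ} (h : Tuple N d) (i : Fin m) : (d i : ℤ) ≠ 0 := by
  obtain ⟨q, q', h1, h2, h3, -⟩ := h
  rw [h1 i]
  exact_mod_cast mul_ne_zero (h2 i).1.ne_zero (h3 i).1.ne_zero

lemma good_of {m N : ℕ} {d : Fin m → ℕ} (hd : Tuple N d) {c : ℤ × ℤ}
    (hD : 4 * c.1 ^ 3 + 27 * c.2 ^ 2 ≠ 0)
    (hT : ∃ f : ZMod 2 × ZMod 2 →+ (E c.1 c.2).toAffine.Point, Function.Injective f)
    (h : Pool.Agent.Y667.QK.TwS (fun j => (d j : ℤ)) c) : c ∈ AllTwists d := by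
  rintro T D rfl
  have hp : ∏ i ∈ T, (d i : ℤ) ≠ 0 := prod_ne_zero_iff.2 fun i _ => tup_pos hd i
  refine mem_of (Pool.Agent.Q323.ZT.pr_of_sel
    (c := ((∏ i ∈ T, (d i : ℤ)) ^ 2 * c.1, (∏ i ∈ T, (d i : ℤ)) ^ 3 * c.2))
    (Pool.Agent.Y723.QT.disc_q hp hD)
    (Pool.Agent.Y667.QK.hasT_tw hp hD (Pool.Agent.W307.RT.tors_iff.2 hT)) (h T).2.le)

/-- the property without the size -/
def Pr (c : ℤ × ℤ) : Prop := 4 * c.1 ^ 3 + 27 * c.2 ^ 2 ≠ 0 ∧
    (∀ p : ℕ, p.Prime → ¬ ((p : ℤ) ^ 4 ∣ c.1 ∧ (p : ℤ) ^ 6 ∣ c.2)) ∧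
    (∃ g : ZMod 2 × ZMod 2 →+ (E c.1 c.2).toAffine.Point, Function.Injective g)

lemma good : Pool.Agent.Y679.Cr.Good Pr := by
  classical
  refine ⟨fun c hc => ⟨?_, ?_⟩, fun H c hc => ?_, Pool.Agent.W672.FK.lowf⟩
  · exact Pool.Agent.Y679.Cr.isMin_of hc.1 hc.2.1
  · exact Pool.Agent.Y679.Cr.full_of (Pool.Agent.W307.RT.tors_iff.2 hc.2.2)
  · unfold Pool.Agent.W307.RT.Cv at hc
    obtain ⟨-, h1, -, -, h2, h3⟩ := mem_filter.1 hc
    exact ⟨h1, h2, Pool.Agent.W307.RT.tors_iff.1 h3⟩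

lemma cond_eq (c : ℤ × ℤ) : Pool.Agent.Y679.Cr.cs c = Cond6 c := by
  unfold Pool.Agent.Y679.Cr.cs Pool.Agent.H925R.Szpiro.condS Cond6
  rw [Pool.Agent.Y679.Cr.D_neg, Int.natAbs_neg]
  refine prod_congr rfl fun p _ => ?_
  by_cases h : (p : ℤ) ∣ c.1
  · rw [if_pos h, if_pos (Int.dvd_neg.2 h)]
  · rw [if_neg h, if_neg fun h' => h (Int.dvd_neg.1 h')]

lemma bdd {f : ℤ × ℤ → ℕ} (hf : Factor f) : Pool.Agent.Y679.Cr.Bdd f :=
  fun c => ⟨(hf c).1, (hf c).2.trans (by norm_num)⟩

lemma FamC_eq (f : ℤ × ℤ → ℕ) (Z : ℕ) : Fam (CondLe f) Z = Pool.Agent.Y679.Cr.Gm Pr f Z := by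
  ext c
  unfold Fam CondLe Pool.Agent.Y679.Cr.Gm
  rw [Set.mem_ofPred_eq, Set.mem_ofPred_eq, cond_eq]
  exact ⟨fun h => ⟨⟨h.1, h.2.1, h.2.2.1⟩, h.2.2.2⟩, fun h => ⟨h.1.1, h.1.2.1, h.1.2.2, h.2⟩⟩

/-- the curves with the required 2-Selmer groups, in the three orderings -/
lemma key (I : ℤ × ℤ → ℕ → Prop)
    (hI : I = HeightLe ∨ I = DiscLe ∨ (∃ f : ℤ × ℤ → ℕ, Factor f ∧ I = CondLe f)) :
    (∀ Z : ℕ, (Fam I Z).Finite) ∧ Tendsto (fun Z : ℕ => (Fam I Z).ncard) atTop atTop ∧
    ∀ m N : ℕ, ∃ L : Finset (Fin m → ℕ), (∀ d ∈ L, Tuple N d) ∧ ∃ δ : ℝ, 0 < δ ∧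
      ∀ᶠ Z : ℕ in atTop, ∃ d ∈ L, (0 : ℝ) < ((Fam I Z).ncard : ℝ) ∧
        δ * ((Fam I Z).ncard : ℝ) ≤
          ((Fam I Z ∩ {k | Pool.Agent.Y667.QK.TwS (fun j => (d j : ℤ)) k}).ncard : ℝ) := by
  classical
  obtain ⟨β, hfl⟩ := Pool.Agent.Y388.QK.FLIP 17 (by norm_num) (by norm_num)
  rcases hI with rfl | rfl | ⟨f, hf, rfl⟩
  · have hfin : ∀ Z : ℕ, (Fam HeightLe Z).Finite := fun Z => by
      rw [FamH_eq]
      exact finite_toSet _
    refine ⟨hfin, tendstoH, fun m N => ?_⟩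
    obtain ⟨L, hL, δ, hδ, H0, h⟩ :=
      Pool.Agent.Y667.QK.main_h Pool.Agent.Y388.QK.PRM hfl m N
    refine ⟨L, hL, δ, hδ, ?_⟩
    filter_upwards [eventually_ge_atTop H0, tendstoH.eventually_ge_atTop 1] with H hH hH1
    obtain ⟨d, hd, hle⟩ := h H hH
    refine ⟨d, hd, by exact_mod_cast hH1, ?_⟩
    have e1 : (Fam HeightLe H).ncard = (Pool.Agent.W307.RT.Cv 2 H).card := by
      rw [FamH_eq, Set.ncard_coe_finset]
    rw [e1]
    refine hle.trans (Nat.cast_le.2 ?_)
    rw [← Set.ncard_coe_finset]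
    refine Set.ncard_le_ncard (fun k hk => ?_) ((hfin H).inter_of_left _)
    rw [mem_coe, mem_filter] at hk
    refine ⟨?_, hk.2⟩
    rw [FamH_eq, mem_coe]
    exact hk.1
  · have hfin : ∀ Z : ℕ, (Fam DiscLe Z).Finite := fun Z => by
      rw [FamD_eq]
      exact finite_toSet _
    refine ⟨hfin, tendstoD, fun m N => ?_⟩
    obtain ⟨L, hL, δ, hδ, H0, h⟩ :=
      Pool.Agent.Y667.QK.main_d Pool.Agent.Y388.QK.PRM hfl m N
    refine ⟨L, hL, δ, hδ, ?_⟩
    filter_upwards [eventually_ge_atTop H0, tendstoD.eventually_ge_atTop 1] with H hH hH1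
    obtain ⟨d, hd, hle⟩ := h H hH
    refine ⟨d, hd, by exact_mod_cast hH1, ?_⟩
    have e1 : (Fam DiscLe H).ncard = (Pool.Agent.TH344.DS.Dv H).card := by
      rw [FamD_eq, Set.ncard_coe_finset]
    rw [e1]
    refine hle.trans (Nat.cast_le.2 ?_)
    rw [← Set.ncard_coe_finset]
    refine Set.ncard_le_ncard (fun k hk => ?_) ((hfin H).inter_of_left _)
    rw [mem_coe, mem_filter] at hk
    refine ⟨?_, hk.2⟩
    rw [FamD_eq, mem_coe]
    exact hk.1
  · refine ⟨fun Z => ?_, ?_, fun m N => ?_⟩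
    · rw [FamC_eq]
      exact Pool.Agent.Y679.Cr.Gm_fin good (bdd hf) Z
    · simp only [FamC_eq]
      exact Pool.Agent.Y679.Cr.Gm_tendsto good (bdd hf)
    · obtain ⟨L, hL, δ₀, hδ₀, H0, h⟩ :=
        Pool.Agent.Y667.QK.main_h Pool.Agent.Y388.QK.PRM hfl m N
      obtain ⟨δ, hδ, Z0, hZ0⟩ := Pool.Agent.Q323.CO.posL good (L := L)
        (T := fun d c => Pool.Agent.Y667.QK.TwS (fun j => (d j : ℤ)) c) (by
        refine ⟨δ₀, hδ₀, H0, fun H hH => ?_⟩
        obtain ⟨d, hd, hle⟩ := h H hH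
        refine ⟨d, hd, _, fun k hk => ?_, hle⟩
        exact mem_filter.1 (mem_coe.1 hk))
      refine ⟨L, hL, δ, hδ, ?_⟩
      filter_upwards [eventually_ge_atTop Z0] with Z hZ
      obtain ⟨d, hd, h1⟩ := hZ0 Z hZ
      obtain ⟨h2, h3⟩ := h1 f (bdd hf)
      rw [← FamC_eq] at h2 h3
      exact ⟨d, hd, h2, h3⟩

/-- **Theorem.** Order the elliptic curves over `ℚ` with full rational 2-torsion by the naive height, by
the absolute value of the minimal discriminant, or by the conductor (with an arbitrary factor between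
`1` and `2 ^ 8 * 3 ^ 5` in the place of its part composed of 2 and 3, and with no bound on the height).
In each ordering there are finitely many curves of size at most `Z`, their number tends to infinity
with `Z`, and for all `m`, `N` there are a finite list `L` of tuples `d = (q_1 q'_1, ..., q_m q'_m)`
with `2 m` distinct primes larger than `N`, so that the `2 ^ m` products `D = ∏_{i ∈ T} d_i` are
different modulo squares, and `δ > 0` such that for all large `Z` for some `d` in `L` at least a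
proportion `δ` of the curves of size at most `Z` is in `AllTwists d`: on all the `2 ^ m` quadratic
twists `E^D` every family of local zero-cycles orthogonal to the classes `(x - e, q)` is congruent to
a rational zero-cycle modulo `2 F¹(E^D_v)` at all the places `v`; and one `d` in `L` has this property
for arbitrarily large `Z`. -/
theorem result : ∀ I : ℤ × ℤ → ℕ → Prop,
    I = HeightLe ∨ I = DiscLe ∨ (∃ f : ℤ × ℤ → ℕ, Factor f ∧ I = CondLe f) →
    (∀ Z : ℕ, (Fam I Z).Finite) ∧ Tendsto (fun Z : ℕ => (Fam I Z).ncard) atTop atTop ∧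
    ∀ m N : ℕ, ∃ L : Finset (Fin m → ℕ), (∀ d ∈ L, Tuple N d) ∧
      ∃ δ : ℝ, 0 < δ ∧ (∀ᶠ Z : ℕ in atTop, ∃ d ∈ L, δ ≤ proportion I (AllTwists d) Z) ∧
        ∃ d ∈ L, ∃ᶠ Z : ℕ in atTop, δ ≤ proportion I (AllTwists d) Z := by
  classical
  intro I hI
  obtain ⟨h1, h2, h3⟩ := key I hI
  refine ⟨h1, h2, fun m N => ?_⟩
  obtain ⟨L, hL, δ, hδ, h⟩ := h3 m N
  have hk : ∀ᶠ Z : ℕ in atTop, ∃ d ∈ L, δ ≤ proportion I (AllTwists d) Z := by
    filter_upwards [h] with Z hZ
    obtain ⟨d, hd, g1, g2⟩ := hZ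
    refine ⟨d, hd, ?_⟩
    unfold proportion
    rw [le_div_iff₀ g1]
    refine g2.trans (Nat.cast_le.2 (Set.ncard_le_ncard ?_ ((h1 Z).inter_of_left _)))
    rintro k ⟨h4, h5⟩
    exact ⟨h4, good_of (hL d hd) h4.1 h4.2.2.1 h5⟩
  exact ⟨L, hL, δ, hδ, hk, Pool.Agent.Q323.CO.pack L
    (fun d Z => δ ≤ proportion I (AllTwists d) Z) hk⟩

end Pool.Agent.Results.MP_f80667_ag.SimultaneousTwists
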