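import Mathlib
import Pool.Agent.Q284.ZC.Fin
import Pool.Agent.Q284.FDQ.App
import Pool.Agent.W672.FK.Lowf
import Pool.Agent.W307.RT.Tors
import Pool.Agent.Y679.Cr.Conv
import Pool.Agent.Y679.Cr.Dens

/-!
# Zero-cycles modulo two on the curves with full rational 2-torsion, by conductor

All elliptic curves `E : y² = x³ + A x + B` over `ℚ` with full rational 2-torsion, ordered by the
conductor (with an arbitrary bounded factor in the place of its part composed of 2 and 3), with no
bound on the height. The closed points of `E`, except for the point at infinity `O`, over a field `K`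
are the maximal ideals of the coordinate ring `K[E]`, and the group `F¹(E_K)` of the zero-cycles of
degree zero modulo rational equivalence is the class group of `K[E]` (a zero-cycle on the affine curve
is completed to one of degree zero by a multiple of `O`, and the principal ideals are the divisors of
functions). For a root `e` of `x³ + A x + B` and a nonzero integer `q` the quaternion algebra
`(x - e, q)` is an element of the Brauer group of `E`; its value at a closed point with the residue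
field `L` is, by the projection formula, the quaternion algebra `(N(x - e), q)` over `K`, `N` the norm
from `L` to `K`. For a positive proportion of the curves the sequence
`F¹(E) / 2 → ∏_v F¹(E_v) / 2 → Hom(Br, ℚ / ℤ)` is exact, already for these elements of the Brauer
group: every family of local zero-cycles orthogonal to them is congruent to a rational zero-cycle
modulo `2 F¹(E_v)` at all the places.
-/

set_option autoImplicit false

namespace Pool.Agent.Results.MP_f80667_ag.ZeroCyclesByConductor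

open Finset Filter Topology nonZeroDivisors

/-- the curve `y² = x³ + A x + B` over `ℚ` -/
def E (A B : ℤ) : WeierstrassCurve ℚ := ⟨0, 0, 0, (A : ℚ), (B : ℚ)⟩

/-- The prime-to-6 part of the conductor of `y² = x³ + A x + B` (there is no prime `p` with `p⁴ ∣ A`
and `p⁶ ∣ B`): the product over the primes `p ≥ 5` dividing `4 A³ + 27 B²` of `p` (multiplicative
reduction: `p ∤ A`) or `p²` (additive reduction: `p ∣ A`) -/
def Cond6 (c : ℤ × ℤ) : ℕ :=
  ∏ p ∈ (Int.natAbs (4 * c.1 ^ 3 + 27 * c.2 ^ 2)).primeFactors.filter (fun p => 5 ≤ p),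
    if (p : ℤ) ∣ c.1 then p ^ 2 else p

/-- the admissible factors: functions with values between `1` and `2 ^ 8 * 3 ^ 5`, for instance the
part of the conductor composed of the primes 2 and 3, or `f = 1` -/
def Factor (f : ℤ × ℤ → ℕ) : Prop := ∀ c, 1 ≤ f c ∧ f c ≤ 2 ^ 8 * 3 ^ 5

/-- the conductor (its prime-to-6 part times the factor `f`) of `y² = x³ + A x + B` is at most `Z` -/
def CondLe (f : ℤ × ℤ → ℕ) (c : ℤ × ℤ) (Z : ℕ) : Prop := f c * Cond6 c ≤ Z

/-- The pairs `(A, B)` of integers such that `4 A³ + 27 B² ≠ 0`, there is no prime `p` with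
`p⁴ ∣ A` and `p⁶ ∣ B`, `Z/2 x Z/2` embeds in the group of the rational points of
`y² = x³ + A x + B`, and the conductor (with the factor `f`) is at most `Z`. Every elliptic curve
over `ℚ` with full rational 2-torsion is isomorphic to `E A B` for exactly one pair with the first
three properties. -/
def Fam (f : ℤ × ℤ → ℕ) (Z : ℕ) : Set (ℤ × ℤ) :=
  {c : ℤ × ℤ | 4 * c.1 ^ 3 + 27 * c.2 ^ 2 ≠ 0 ∧
    (∀ p : ℕ, p.Prime → ¬ ((p : ℤ) ^ 4 ∣ c.1 ∧ (p : ℤ) ^ 6 ∣ c.2)) ∧
    (∃ g : ZMod 2 × ZMod 2 →+ (E c.1 c.2).toAffine.Point, Function.Injective g) ∧ CondLe f c Z}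

/-- the proportion of the curves of `S` among the curves of conductor at most `Z` -/
noncomputable def proportion (f : ℤ × ℤ → ℕ) (S : Set (ℤ × ℤ)) (Z : ℕ) : ℝ :=
  ((Fam f Z ∩ S).ncard : ℝ) / (Fam f Z).ncard

/-- the curve `y² = x³ + A x + B` over the integers -/
def W (A B : ℤ) : WeierstrassCurve.Affine ℤ := ⟨0, 0, 0, A, B⟩

/-- the points of `y² = x³ + A x + B` over a field -/
abbrev Pt (A B : ℤ) (K : Type) [Field K] : Type := ((W A B).baseChange K).Point

/-- the coordinate ring of the affine curve `y² = x³ + A x + B` over a field -/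
def Crd (A B : ℤ) (K : Type) [Field K] : Type := ((W A B).baseChange K).CoordinateRing

noncomputable instance (A B : ℤ) (K : Type) [Field K] : CommRing (Crd A B K) :=
  (inferInstance : CommRing ((W A B).baseChange K).CoordinateRing)

instance (A B : ℤ) (K : Type) [Field K] : IsDomain (Crd A B K) :=
  (inferInstance : IsDomain ((W A B).baseChange K).CoordinateRing)

noncomputable instance (A B : ℤ) (K : Type) [Field K] : Algebra K (Crd A B K) :=
  (inferInstance : Algebra K ((W A B).baseChange K).CoordinateRing)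

/-- a zero-cycle on the affine curve over `K`: a finite formal sum of maximal ideals of the
coordinate ring -/
abbrev Cycle (A B : ℤ) (K : Type) [Field K] : Type := MaximalSpectrum (Crd A B K) →₀ ℤ

/-- the fractional ideals of a domain -/
def FracId (R : Type) [CommRing R] [IsDomain R] : Type := FractionalIdeal R⁰ (FractionRing R)

noncomputable instance (R : Type) [CommRing R] [IsDomain R] : Monoid (FracId R) :=
  (inferInstance : Monoid (FractionalIdeal R⁰ (FractionRing R)))

/-- an ideal as a fractional ideal -/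
noncomputable def frac {R : Type} [CommRing R] [IsDomain R] (I : Ideal R) : FracId R :=
  FractionalIdeal.coeIdeal I

/-- the class of an invertible fractional ideal in the class group -/
noncomputable def mkCl (R : Type) [CommRing R] [IsDomain R] : (FracId R)ˣ →* ClassGroup R :=
  ClassGroup.mk (FractionRing R)

open Classical in
/-- The class of an invertible ideal in the class group (`1` if the ideal is not invertible). -/
noncomputable def cl {R : Type} [CommRing R] [IsDomain R] (I : Ideal R) : ClassGroup R :=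
  if h : IsUnit (frac I) then mkCl R h.unit else 1

/-- The class of a zero-cycle in the class group of the coordinate ring, that is, in `F¹(E_K)`. -/
noncomputable def class' {A B : ℤ} {K : Type} [Field K] (z : Cycle A B K) : ClassGroup (Crd A B K) :=
  z.prod fun 𝔪 n => cl 𝔪.asIdeal ^ n

/-- the residue field of a closed point -/
def Res {A B : ℤ} {K : Type} [Field K] (𝔪 : MaximalSpectrum (Crd A B K)) : Type :=
  Crd A B K ⧸ 𝔪.asIdeal

noncomputable instance {A B : ℤ} {K : Type} [Field K] (𝔪 : MaximalSpectrum (Crd A B K)) :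
    CommRing (Res 𝔪) := (inferInstance : CommRing (Crd A B K ⧸ 𝔪.asIdeal))

noncomputable instance {A B : ℤ} {K : Type} [Field K] (𝔪 : MaximalSpectrum (Crd A B K)) :
    Algebra K (Res 𝔪) := (inferInstance : Algebra K (Crd A B K ⧸ 𝔪.asIdeal))

/-- the function `x` -/
noncomputable def X (A B : ℤ) (K : Type) [Field K] : Crd A B K :=
  WeierstrassCurve.Affine.CoordinateRing.mk _ (Polynomial.C Polynomial.X)

/-- the image of the function `x` in the residue field of a closed point -/
noncomputable def xval {A B : ℤ} {K : Type} [Field K] (𝔪 : MaximalSpectrum (Crd A B K)) : Res 𝔪 :=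
  Ideal.Quotient.mk 𝔪.asIdeal (X A B K)

open Classical in
/-- The norm of the value of the function `x - e` at a closed point, modulo squares, `e` a root of
`x³ + A x + B`. The divisor of the function is `2 (e, 0) - 2 O`; at the zero the value is that of the
product of the two other functions (the derivative of the polynomial). -/
noncomputable def value {A B : ℤ} {K : Type} [Field K] (𝔪 : MaximalSpectrum (Crd A B K)) (e : ℤ) :
    K :=
  Algebra.norm K (if xval 𝔪 - (e : Res 𝔪) = 0 then ((3 * e ^ 2 + A : ℤ) : Res 𝔪)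
    else xval 𝔪 - (e : Res 𝔪))

/-- The value of `x - e` at a zero-cycle, modulo squares. The value of the class `(x - e, q)` of the
Brauer group at the zero-cycle is the class of the quaternion algebra with this entry and `q`. -/
noncomputable def eval {A B : ℤ} {K : Type} [Field K] (z : Cycle A B K) (e : ℤ) : K :=
  z.prod fun 𝔪 n => value 𝔪 e ^ n

/-- a family of zero-cycles over all the completions of `ℚ`: the real component and the `p`-adic
components -/
abbrev Local (A B : ℤ) : Type := Cycle A B ℝ × ∀ p : Nat.Primes, Cycle A B ℚ_[(p : ℕ)]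

/-- The quaternion algebra `(a, b)` over `F` splits, that is, the Hilbert symbol `(a, b)` is `1`:
the conic `z ^ 2 = a x ^ 2 + b y ^ 2` has a point over `F`. -/
def Splits {F : Type} [Field F] (a b : F) : Prop :=
  ∃ x y z : F, (x ≠ 0 ∨ y ≠ 0 ∨ z ≠ 0) ∧ z ^ 2 = a * x ^ 2 + b * y ^ 2

/-- The set of the places (`none` is the real one) at which the value of the class `(x - e, q)` at
the family of local zero-cycles is not trivial. -/
def Ram {A B : ℤ} (z : Local A B) (e q : ℤ) : Set (Option Nat.Primes) :=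
  {v | match v with
    | none => ¬ Splits (eval z.1 e) (q : ℝ)
    | some p => ¬ Splits (eval (z.2 p) e) (q : ℚ_[(p : ℕ)])}

/-- The family of local zero-cycles is orthogonal to the classes `(x - e, q)`: the number of the
places at which the value is not trivial is even, so that the sum of the invariants is zero. -/
def Orthogonal {A B : ℤ} (z : Local A B) : Prop :=
  ∀ e : ℤ, e ^ 3 + A * e + B = 0 → ∀ q : ℤ, q ≠ 0 → Even (Ram z e q).ncard

open Classical in
/-- The class of `P - O` in `F¹(E_K)`, as a homomorphism: Mathlib's isomorphism `toClass` of the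
group of points with the class group. -/
noncomputable def toCl (A B : ℤ) (K : Type) [Field K] :
    Pt A B K →+ Additive (ClassGroup (Crd A B K)) :=
  WeierstrassCurve.Affine.Point.toClass

open Classical in
/-- The class of `P - O` in `F¹(E_K)`. -/
noncomputable def ptClass {A B : ℤ} {K : Type} [Field K] (P : Pt A B K) : ClassGroup (Crd A B K) :=
  (toCl A B K P).toMul

open Classical in
/-- a rational point as a point over `K` -/
noncomputable def bc {A B : ℤ} (Q : Pt A B ℚ) (K : Type) [Field K] [CharZero K] : Pt A B K :=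
  WeierstrassCurve.Affine.Point.baseChange ℚ K Q

/-- The zero-cycle is congruent to the class of `Q - O` modulo `2 F¹(E_K)`. -/
def Cong {A B : ℤ} {K : Type} [Field K] [CharZero K] (z : Cycle A B K) (Q : Pt A B ℚ) : Prop :=
  ∃ c : ClassGroup (Crd A B K), class' z = ptClass (bc Q K) * c ^ 2

/-- The family of local zero-cycles is congruent to the class of the zero-cycle `Q - O` modulo
`2 F¹(E_v)` at all the places `v`, `Q` a rational point (or `O`). -/
def Congruent {A B : ℤ} (z : Local A B) (Q : Pt A B ℚ) : Prop :=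
  Cong z.1 Q ∧ ∀ p : Nat.Primes, Cong (z.2 p) Q

/-- all maximal ideals of the coordinate ring are invertible -/
def Invertible (A B : ℤ) (K : Type) [Field K] : Prop :=
  ∀ 𝔪 : MaximalSpectrum (Crd A B K), IsUnit (frac 𝔪.asIdeal)

/-- The curves for which every class `(x - e, q)` has a nontrivial value at finitely many components
of every family of local zero-cycles, and every family orthogonal to these classes is congruent to a
rational zero-cycle modulo `2 F¹(E_v)` at all the places (all the maximal ideals of the coordinate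
rings being invertible, so that the classes make sense). -/
def ModTwo : Set (ℤ × ℤ) :=
  {c | (Invertible c.1 c.2 ℝ ∧ ∀ p : Nat.Primes, Invertible c.1 c.2 ℚ_[(p : ℕ)]) ∧
    (∀ (z : Local c.1 c.2) (e q : ℤ), e ^ 3 + c.1 * e + c.2 = 0 → q ≠ 0 → (Ram z e q).Finite) ∧
    ∀ z : Local c.1 c.2, Orthogonal z → ∃ Q : Pt c.1 c.2 ℚ, Congruent z Q}

open Classical in
lemma value_eq {K : Type} [Field K] {A B e e' e'' : ℤ}
    (h : ∀ x : ℤ, x ^ 3 + A * x + B = (x - e) * (x - e') * (x - e''))
    (𝔪 : MaximalSpectrum (Crd A B K)) :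
    value 𝔪 e = Pool.Agent.Q284.ZC.cval (W := (Pool.Agent.Q284.FDQ.WZ A B).baseChange K)
      𝔪.asIdeal (e : K) (((e : K) - e') * (e - e'')) := by
  obtain ⟨hs, hA, -⟩ := Pool.Agent.W402.FK.coef A B e e' e'' h
  have h1 : ((3 * e ^ 2 + A : ℤ) : K) = ((e : K) - e') * (e - e'') := by
    have h2 : 3 * e ^ 2 + A = (e - e') * (e - e'') := by
      rw [hA]
      linear_combination (2 * e) * hs
    rw [h2]
    push_cast
    ring
  have h2 : ((3 * e ^ 2 + A : ℤ) : Res 𝔪) =
      algebraMap K (Res 𝔪) (((e : K) - e') * (e - e'')) := by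
    rw [← h1]
    exact (map_intCast (algebraMap K (Res 𝔪)) _).symm
  have h3 : (e : Res 𝔪) = algebraMap K (Res 𝔪) (e : K) :=
    (map_intCast (algebraMap K (Res 𝔪)) e).symm
  unfold value
  rw [h2, h3]
  rfl

/-- the point with the class and the values of a zero-cycle -/
lemma cycle_pt {K : Type} [Field K] [CharZero K] [DecidableEq K] {A B e1 e2 e3 : ℤ}
    (h : ∀ x : ℤ, x ^ 3 + A * x + B = (x - e1) * (x - e2) * (x - e3)) (h12 : e1 ≠ e2)
    (h13 : e1 ≠ e3) (h23 : e2 ≠ e3) (z : Cycle A B K) :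
    ∃ S : ((Pool.Agent.Q284.FDQ.WZ A B).baseChange K).Point,
      class' z = (WeierstrassCurve.Affine.Point.toClass S).toMul ∧
      (IsSquare (Pool.Agent.Q284.FDQ.vl S (e1 : K) (((e1 : K) - e2) * (e1 - e3)) * eval z e1) ∧
        eval z e1 ≠ 0) ∧
      (IsSquare (Pool.Agent.Q284.FDQ.vl S (e2 : K) (((e2 : K) - e1) * (e2 - e3)) * eval z e2) ∧
        eval z e2 ≠ 0) ∧
      IsSquare (Pool.Agent.Q284.FDQ.vl S (e3 : K) (((e3 : K) - e1) * (e3 - e2)) * eval z e3) ∧
        eval z e3 ≠ 0 := by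
  have c12 : (e1 : K) ≠ e2 := fun h => h12 (by exact_mod_cast h)
  have c13 : (e1 : K) ≠ e3 := fun h => h13 (by exact_mod_cast h)
  have c23 : (e2 : K) ≠ e3 := fun h => h23 (by exact_mod_cast h)
  have p2 : ∀ x : ℤ, x ^ 3 + A * x + B = (x - e2) * (x - e1) * (x - e3) := by
    intro x; rw [h]; ring
  have p3 : ∀ x : ℤ, x ^ 3 + A * x + B = (x - e3) * (x - e1) * (x - e2) := by
    intro x; rw [h]; ring
  obtain ⟨S, s0, ⟨s1, s2, s3⟩, n1, n2, n3⟩ := Pool.Agent.Q284.ZC.cycle_cls
    (W := (Pool.Agent.Q284.FDQ.WZ A B).baseChange K) (Pool.Agent.Q284.FDQ.WZ_eq h K)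
    c12 c13 c23 z
  have g1 : eval z e1 = z.prod fun 𝔪 n => Pool.Agent.Q284.ZC.cval
      (W := (Pool.Agent.Q284.FDQ.WZ A B).baseChange K) 𝔪.asIdeal (e1 : K)
      (((e1 : K) - e2) * (e1 - e3)) ^ n := by
    unfold eval
    exact Finset.prod_congr rfl fun 𝔪 _ => congrArg (· ^ (z 𝔪)) (value_eq h 𝔪)
  have g2 : eval z e2 = z.prod fun 𝔪 n => Pool.Agent.Q284.ZC.cval
      (W := (Pool.Agent.Q284.FDQ.WZ A B).baseChange K) 𝔪.asIdeal (e2 : K)
      (((e2 : K) - e1) * (e2 - e3)) ^ n := by
    unfold eval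
    exact Finset.prod_congr rfl fun 𝔪 _ => congrArg (· ^ (z 𝔪)) (value_eq p2 𝔪)
  have g3 : eval z e3 = z.prod fun 𝔪 n => Pool.Agent.Q284.ZC.cval
      (W := (Pool.Agent.Q284.FDQ.WZ A B).baseChange K) 𝔪.asIdeal (e3 : K)
      (((e3 : K) - e1) * (e3 - e2)) ^ n := by
    unfold eval
    exact Finset.prod_congr rfl fun 𝔪 _ => congrArg (· ^ (z 𝔪)) (value_eq p3 𝔪)
  rw [g1, g2, g3]
  exact ⟨S, s0, ⟨s1, n1⟩, ⟨s2, n2⟩, s3, n3⟩

lemma mem_of {c : ℤ × ℤ} (h : Pool.Agent.Q284.FDQ.PR c) : c ∈ ModTwo := by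
  classical
  obtain ⟨e1, e2, e3, hp, h12, h13, h23, h4, hc⟩ := h
  have p2 : ∀ x : ℤ, x ^ 3 + c.1 * x + c.2 = (x - e2) * (x - e1) * (x - e3) := by
    intro x; rw [hp]; ring
  have p3 : ∀ x : ℤ, x ^ 3 + c.1 * x + c.2 = (x - e3) * (x - e1) * (x - e2) := by
    intro x; rw [hp]; ring
  have hinv : ∀ (K : Type) [Field K] [CharZero K], Invertible c.1 c.2 K := by
    intro K _ _ 𝔪
    have c12 : (e1 : K) ≠ e2 := fun h => h12 (by exact_mod_cast h)
    have c13 : (e1 : K) ≠ e3 := fun h => h13 (by exact_mod_cast h)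
    have c23 : (e2 : K) ≠ e3 := fun h => h23 (by exact_mod_cast h)
    exact (Pool.Agent.Q284.ZC.max_cls (h := 𝔪.isMaximal)
      (W := (Pool.Agent.Q284.FDQ.WZ c.1 c.2).baseChange K) (Pool.Agent.Q284.FDQ.WZ_eq hp K)
      c12 c13 c23 𝔪.asIdeal).1
  have ne : ∀ {a b c : ℤ}, a ≠ b → a ≠ c → ∀ (K : Type) [Field K] [CharZero K],
      ((a : K) - b) * (a - c) ≠ 0 := by
    intro a b c hab hac K _ _
    exact mul_ne_zero (sub_ne_zero.2 (fun h => hab (by exact_mod_cast h)))
      (sub_ne_zero.2 (fun h => hac (by exact_mod_cast h)))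
  -- the adelic point
  have pts : ∀ z : Local c.1 c.2, ∃ (Pr : ((Pool.Agent.Q284.FDQ.WZ c.1 c.2).baseChange ℝ).Point)
      (Pp : ∀ p : Nat.Primes, ((Pool.Agent.Q284.FDQ.WZ c.1 c.2).baseChange ℚ_[(p : ℕ)]).Point),
      class' z.1 = (WeierstrassCurve.Affine.Point.toClass Pr).toMul ∧
      (∀ p, class' (z.2 p) = (WeierstrassCurve.Affine.Point.toClass (Pp p)).toMul) ∧
      (∀ q : ℤ, Ram z e1 q = Pool.Agent.W313.BMX.ram
        ⟨Pool.Agent.Q284.FDQ.vl Pr (e1 : ℝ) (((e1 : ℝ) - e2) * (e1 - e3)), fun p =>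
          Pool.Agent.Q284.FDQ.vl (Pp p) (e1 : ℚ_[(p : ℕ)])
            (((e1 : ℚ_[(p : ℕ)]) - e2) * (e1 - e3))⟩ q) ∧
      (∀ q : ℤ, Ram z e2 q = Pool.Agent.W313.BMX.ram
        ⟨Pool.Agent.Q284.FDQ.vl Pr (e2 : ℝ) (((e2 : ℝ) - e1) * (e2 - e3)), fun p =>
          Pool.Agent.Q284.FDQ.vl (Pp p) (e2 : ℚ_[(p : ℕ)])
            (((e2 : ℚ_[(p : ℕ)]) - e1) * (e2 - e3))⟩ q) ∧
      (∀ q : ℤ, Ram z e3 q = Pool.Agent.W313.BMX.ram
        ⟨Pool.Agent.Q284.FDQ.vl Pr (e3 : ℝ) (((e3 : ℝ) - e1) * (e3 - e2)), fun p =>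
          Pool.Agent.Q284.FDQ.vl (Pp p) (e3 : ℚ_[(p : ℕ)])
            (((e3 : ℚ_[(p : ℕ)]) - e1) * (e3 - e2))⟩ q) := by
    intro z
    obtain ⟨Pr, r0, ⟨r1, r1'⟩, ⟨r2, r2'⟩, r3, r3'⟩ := cycle_pt hp h12 h13 h23 z.1
    choose Pp k0 k1 k2 k3 k3' using fun p : Nat.Primes => cycle_pt hp h12 h13 h23 (z.2 p)
    refine ⟨Pr, Pp, r0, k0, fun q => ?_, fun q => ?_, fun q => ?_⟩
    · ext v
      cases v with
      | none =>
        exact not_congr (Pool.Agent.Q284.ZC.splits_sq
          (Pool.Agent.Q284.FDQ.vl_ne Pr (ne h12 h13 ℝ)) r1' r1).symm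
      | some p =>
        exact not_congr (Pool.Agent.Q284.ZC.splits_sq
          (Pool.Agent.Q284.FDQ.vl_ne (Pp p) (ne h12 h13 _)) (k1 p).2 (k1 p).1).symm
    · ext v
      cases v with
      | none =>
        exact not_congr (Pool.Agent.Q284.ZC.splits_sq
          (Pool.Agent.Q284.FDQ.vl_ne Pr (ne h12.symm h23 ℝ)) r2' r2).symm
      | some p =>
        exact not_congr (Pool.Agent.Q284.ZC.splits_sq
          (Pool.Agent.Q284.FDQ.vl_ne (Pp p) (ne h12.symm h23 _)) (k2 p).2 (k2 p).1).symm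
    · ext v
      cases v with
      | none =>
        exact not_congr (Pool.Agent.Q284.ZC.splits_sq
          (Pool.Agent.Q284.FDQ.vl_ne Pr (ne h13.symm h23.symm ℝ)) r3' r3).symm
      | some p =>
        exact not_congr (Pool.Agent.Q284.ZC.splits_sq
          (Pool.Agent.Q284.FDQ.vl_ne (Pp p) (ne h13.symm h23.symm _)) (k3' p) (k3 p)).symm
  refine ⟨⟨hinv ℝ, fun p => hinv _⟩, fun z e q he hq => ?_, fun z hz => ?_⟩
  · obtain ⟨Pr, Pp, -, -, t1, t2, t3⟩ := pts z
    rcases Pool.Agent.W402.FK.roots c.1 c.2 e1 e2 e3 hp e he with rfl | rfl | rfl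
    · rw [t1 q]
      exact Pool.Agent.Q284.FDQ.ram_fin hp h12 h13 h23 Pr Pp hq
    · rw [t2 q]
      exact Pool.Agent.Q284.FDQ.ram_fin p2 h12.symm h23 h13 Pr Pp hq
    · rw [t3 q]
      exact Pool.Agent.Q284.FDQ.ram_fin p3 h13.symm h23.symm h12 Pr Pp hq
  · obtain ⟨Pr, Pp, s0, s1, t1, t2, -⟩ := pts z
    obtain ⟨Q, q1, q2⟩ := Pool.Agent.Q284.FDQ.adelic_core hp h12 h13 h23 h4 hc Pr Pp
      (fun q hq => by
        have := hz e1 (by rw [hp]; ring) q hq
        rwa [t1 q] at this)
      (fun q hq => by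
        have := hz e2 (by rw [hp]; ring) q hq
        rwa [t2 q] at this)
    refine ⟨Q, ?_, fun p => ?_⟩
    · obtain ⟨R, hR⟩ := q1
      refine ⟨(WeierstrassCurve.Affine.Point.toClass R).toMul, ?_⟩
      rw [s0, hR, map_add, toMul_add, map_add, toMul_add]
      exact congrArg₂ (· * ·) rfl (pow_two _).symm
    · obtain ⟨R, hR⟩ := q2 p
      refine ⟨(WeierstrassCurve.Affine.Point.toClass R).toMul, ?_⟩
      rw [s1, hR, map_add, toMul_add, map_add, toMul_add]
      exact congrArg₂ (· * ·) rfl (pow_two _).symm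

/-- the property without the size -/
def Pr (c : ℤ × ℤ) : Prop := 4 * c.1 ^ 3 + 27 * c.2 ^ 2 ≠ 0 ∧
    (∀ p : ℕ, p.Prime → ¬ ((p : ℤ) ^ 4 ∣ c.1 ∧ (p : ℤ) ^ 6 ∣ c.2)) ∧
    (∃ g : ZMod 2 × ZMod 2 →+ (E c.1 c.2).toAffine.Point, Function.Injective g)

lemma good : Pool.Agent.Y679.Cr.Good Pr := by
  classical
  refine ⟨fun c hc => ⟨?_, ?_⟩, fun H c hc => ?_, Pool.Agent.W672.FK.lowf⟩
  · exact Pool.Agent.Y679.Cr.isMin_of hc.1 hc.2.1
  · exact Pool.Agent.Y679.Cr.full_of (Pool.Agent.W307.RT.tors_iff.2 hc.2.2)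
  · unfold Pool.Agent.W307.RT.Cv at hc
    obtain ⟨-, h1, -, -, h2, h3⟩ := mem_filter.1 hc
    exact ⟨h1, h2, Pool.Agent.W307.RT.tors_iff.1 h3⟩

lemma cond_eq (c : ℤ × ℤ) : Pool.Agent.Y679.Cr.cs c = Cond6 c := by
  unfold Pool.Agent.Y679.Cr.cs Pool.Agent.H925R.Szpiro.condS Cond6
  rw [Pool.Agent.Y679.Cr.D_neg, Int.natAbs_neg]
  refine prod_congr rfl fun p _ => ?_
  by_cases h : (p : ℤ) ∣ c.1
  · rw [if_pos h, if_pos (Int.dvd_neg.2 h)]
  · rw [if_neg h, if_neg fun h' => h (Int.dvd_neg.1 h')]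

lemma bdd {f : ℤ × ℤ → ℕ} (hf : Factor f) : Pool.Agent.Y679.Cr.Bdd f :=
  fun c => ⟨(hf c).1, (hf c).2.trans (by norm_num)⟩

lemma FamC_eq (f : ℤ × ℤ → ℕ) (Z : ℕ) : Fam f Z = Pool.Agent.Y679.Cr.Gm Pr f Z := by
  ext c
  unfold Fam CondLe Pool.Agent.Y679.Cr.Gm
  rw [Set.mem_ofPred_eq, Set.mem_ofPred_eq, cond_eq]
  exact ⟨fun h => ⟨⟨h.1, h.2.1, h.2.2.1⟩, h.2.2.2⟩, fun h => ⟨h.1.1, h.1.2.1, h.1.2.2, h.2⟩⟩

/-- **Theorem.** Order the elliptic curves over `ℚ` with full rational 2-torsion by the conductor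
(the part composed of 2 and 3 replaced by an arbitrary factor `f` between `1` and `2 ^ 8 * 3 ^ 5`,
for instance by itself). There are finitely many curves of conductor at most `Z`, their number tends
to infinity with `Z`, and there is `δ > 0`, independent of `f`, such that for large `Z` at least the
proportion `δ` of these curves belongs to `ModTwo`: every family of local zero-cycles orthogonal to the
classes `(x - e, q)` is congruent to a rational zero-cycle modulo `2 F¹(E_v)` at all the places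
`v`. -/
theorem result :
    (∀ f : ℤ × ℤ → ℕ, Factor f → (∀ Z : ℕ, (Fam f Z).Finite) ∧
      Tendsto (fun Z : ℕ => (Fam f Z).ncard) atTop atTop) ∧
    ∃ δ : ℝ, 0 < δ ∧ ∀ f : ℤ × ℤ → ℕ, Factor f →
      ∀ᶠ Z : ℕ in atTop, δ ≤ proportion f ModTwo Z := by
  classical
  refine ⟨fun f hf => ⟨fun Z => ?_, ?_⟩, ?_⟩
  · rw [FamC_eq]
    exact Pool.Agent.Y679.Cr.Gm_fin good (bdd hf) Z
  · simp only [FamC_eq]
    exact Pool.Agent.Y679.Cr.Gm_tendsto good (bdd hf)
  · obtain ⟨δ, hδ, h⟩ := Pool.Agent.Y679.Cr.pos good (T := Pool.Agent.Q284.FDQ.PR) (by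
      obtain ⟨c, hc, H0, h⟩ := Pool.Agent.Q284.FDQ.curvesPR
      refine ⟨c, hc, H0, fun H hH => ⟨_, fun k hk => ?_, h H hH⟩⟩
      exact mem_filter.1 (mem_coe.1 hk))
    refine ⟨δ, hδ, fun f hf => ?_⟩
    filter_upwards [h f (bdd hf)] with Z hZ
    refine hZ.trans ?_
    unfold proportion
    rw [← FamC_eq]
    refine div_le_div_of_nonneg_right (Nat.cast_le.2 (Set.ncard_le_ncard ?_ (Set.Finite.subset
      (by
        rw [FamC_eq]
        exact Pool.Agent.Y679.Cr.Gm_fin good (bdd hf) Z) Set.inter_subset_left)))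
      (Nat.cast_nonneg _)
    rintro k ⟨h1, h2⟩
    exact ⟨h1, mem_of h2⟩

end Pool.Agent.Results.MP_f80667_ag.ZeroCyclesByConductor
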